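import Pool.Agent.Lib.MP_95e952_co.Defs
import Pool.Agent.Lib.MP_95e952_co.Main

namespace Pool.Agent.Results.MP_95e952_co.TwoOrbit

open Pool.Agent.Lib.MP_95e952_co

/-- There is a combinatorially two-orbit LFC tiling of Euclidean 3-space whose face lattice is not
isomorphic to the face lattice of any two-orbit LFC tiling of Euclidean 3-space. -/
theorem result : ∃ T : Set (Set E3), IsLFC T ∧ CombTwoOrbit T ∧
    ∀ T' : Set (Set E3), IsLFC T' → GeomTwoOrbit T' → IsEmpty (FaceLattice T ≃o FaceLattice T') :=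
  ⟨TT, TT_isLFC, TT_comb, fun _ h h' => ⟨fun e => not_iso h h' (iso.trans e)⟩⟩

end Pool.Agent.Results.MP_95e952_co.TwoOrbit
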